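import Mathlib
import Pool.Agent.Q51.UF.Near
import Pool.Agent.Y215.AF.LogHull

set_option autoImplicit false
set_option linter.unusedSectionVars false

/-!
# Sums of elements of a group of finite rank on the members of a family of affine varieties
-/

namespace Pool.Agent.Q51.UF

open Finset NumberField Height Module Filter MvPolynomial
open Pool.Agent.Helper259.AbsHt Pool.Agent.Y215.SK Pool.Agent.Y215.AF Pool.Agent.W235.RM
open Pool.Agent.H533R3.SL (cur)
open Pool.Agent.Y215.SP (epsn epsn_pos)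

variable {n N r : ℕ} {A : Type}

theorem hmg_map {R S : Type} [CommRing R] [CommRing S] (φ : R →+* S) (d : ℕ)
    (F : MvPolynomial (Fin n) R) : MvPolynomial.map φ (hmg d F) = hmg d (MvPolynomial.map φ F) := by
  classical
  unfold hmg
  rw [map_sum]
  have h1 : ∀ α ∈ F.support, α ∉ (MvPolynomial.map φ F).support →
      monomial (Finsupp.cons (d - ∑ i, α i) α) (coeff α (MvPolynomial.map φ F)) = 0 := by
    intro α _ hα
    rw [notMem_support_iff.1 hα, monomial_zero]
  rw [Finset.sum_subset (support_map_subset φ F) h1]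
  refine Finset.sum_congr rfl fun α _ => ?_
  rw [map_monomial, coeff_map]

/-- all nonconstant curves with `r` terms on the members of the family lie on `G = 0` -/
def CurCondU (F : Fin N → MvPolynomial (Fin n) (MvPolynomial A ℤ)) (d : ℕ)
    (G : MvPolynomial (Fin n) (MvPolynomial A ℤ)) (r : ℕ) : Prop :=
  ∀ (L : Type) [Field L] [CharZero L] (a : A → L) (c : Fin r → Fin n → L) (l : Fin (r + 1) → ℕ),
    (∀ i, aeval (cur (homC c) l) (hmg d (fam a (F i))) = 0) →
    (∃ i i', cur (homC c) l i * Polynomial.C (∑ j, homC c j i') ≠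
      cur (homC c) l i' * Polynomial.C (∑ j, homC c j i)) →
    eval (fun i => ∑ j, c j i) (fam a G) = 0

theorem curCond_of (F : Fin N → MvPolynomial (Fin n) (MvPolynomial A ℤ)) (d : ℕ)
    (G : MvPolynomial (Fin n) (MvPolynomial A ℤ)) (hC : CurCondU F d G r) (L : Type) [Field L]
    [CharZero L] (a : A → L) : CurCond (fun i => fam a (F i)) d (fam a G) r := by
  intro M _ _ c l h1 h2
  have hM : CharZero M := charZero_of_injective_algebraMap (algebraMap L M).injective
  have h3 := hC M (fun α => algebraMap L M (a α)) c l (fun i => by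
    rw [← fam_map, ← hmg_map, aeval_map_algebraMap]
    exact h1 i) h2
  rw [← fam_map, eval_map, ← aeval_def] at h3
  exact h3

theorem totalDegree_fam_le {L : Type} [CommRing L] (a : A → L)
    (F : MvPolynomial (Fin n) (MvPolynomial A ℤ)) :
    (fam a F).totalDegree ≤ F.totalDegree :=
  Finset.sup_mono (support_map_subset _ _)

theorem pattern_condU (F : Fin N → MvPolynomial (Fin n) (MvPolynomial A ℤ)) (d d' : ℕ)
    (hd : ∀ i, (F i).totalDegree ≤ d) (G : MvPolynomial (Fin n) (MvPolynomial A ℤ))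
    (hd' : G.totalDegree ≤ d') (hC : CurCondU F d G r) :
    ∀ (L : Type) [Field L] [CharZero L] (a : A → L) (c : Fin (r + 1) → Fin (n + 1) → L)
      (l : Fin (r + 1) → ℕ),
        (∀ j i, (j, i) ∉ TT r n → c j i = 0) →
        (∀ i, MvPolynomial.aeval (cur c l) (fam a (hmg d (F i))) = 0) →
        (∃ i i', cur c l i * Polynomial.C (∑ j, c j i') ≠
          cur c l i' * Polynomial.C (∑ j, c j i)) →
        eval (fun i => ∑ j, c j i) (fam a (X 0 * hmg d' G)) = 0 := by
  intro L _ _ a c l hT hz hne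
  have h1 := pattern_cond (fun i => fam a (F i)) d d'
    (fun i => (totalDegree_fam_le a _).trans (hd i)) (fam a G)
    ((totalDegree_fam_le a _).trans hd') r (curCond_of F d G hC L a) L c l hT (fun i => by
      have h2 := hz i
      unfold fam at h2 ⊢
      rw [hmg_map] at h2
      exact h2) hne
  unfold fam at h1 ⊢
  rw [map_mul, map_X, hmg_map]
  simpa [aeval_def] using h1

/-- **The height inequality on the members of a family of affine varieties.** -/
theorem heightsOffU [Finite A] (F : Fin N → MvPolynomial (Fin n) (MvPolynomial A ℤ)) (d : ℕ)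
    (hd : ∀ i, (F i).totalDegree ≤ d) (G : MvPolynomial (Fin n) (MvPolynomial A ℤ)) (r : ℕ)
    (hcur : CurCondU F d G r) (Γ : Subgroup Qbarˣ) (hΓ : Γ.FG) :
    ∃ C : ℝ, ∀ (a : A → Qbar) (u : Fin r → Qbarˣ) (V : Fin r → Fin n → Qbar),
      (∀ j, u j ∈ DivHull Γ) →
      OffA (fun i => fam a (F i)) (fam a G) (fun i => ∑ j, (u j : Qbar) * V j i) →
      hA (fun i => ∑ j, (u j : Qbar) * V j i) ≤ C * (1 + hA a + hAV V) := by
  classical
  obtain ⟨C, hC⟩ := mult_boundU (fun i => hmg d (F i)) (fun i => ⟨d, hmg_homog d _ (hd _)⟩)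
    (X 0 * hmg G.totalDegree G)
    ⟨_, (isHomogeneous_X _ (0 : Fin (n + 1))).mul (hmg_homog _ _ le_rfl)⟩ (TT r n)
    (pattern_condU F d G.totalDegree hd G le_rfl hcur) Γ hΓ
  refine ⟨|C| + (r + 1) + 1, fun a u V hu hxo => ?_⟩
  have hx := psum_hom u V
  have hfam : ∀ (e : ℕ) (p : MvPolynomial (Fin n) (MvPolynomial A ℤ)),
      fam a (hmg e p) = hmg e (fam a p) := fun e p => hmg_map _ e p
  have hon : OnOff (fun i => fam a (hmg d (F i))) (fam a (X 0 * hmg G.totalDegree G))
      (Y215.SK.psum Finset.univ (homU u) (homV V)) := by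
    have e1 : (fun i => fam a (hmg d (F i))) = fun i => hmg d (fam a (F i)) := by
      funext i
      exact hfam _ _
    have e2 : fam a (X 0 * hmg G.totalDegree G) = X 0 * hmg G.totalDegree (fam a G) := by
      rw [← hfam]
      unfold fam
      rw [map_mul, map_X]
    rw [hx, e1, e2]
    exact onOff_consA (fun i => fam a (F i)) d _
      (fun i => (totalDegree_fam_le a _).trans (hd i)) (fam a G) (totalDegree_fam_le a _) _ hxo
  obtain ⟨J, hJ, hh⟩ := hC a (homU u) (homV V) (fun j i h => homV_zero V j i h)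
    (homU_hull Γ u hu) hon
  obtain ⟨c, hc, hc2⟩ := good_prop J (homU u) (homV V) hJ hon.1
  have h3 := psum_height J (homU u) (homV V)
  rw [hc2, absLogHeight_smul _ hc, hx] at h3
  have h4 := hA_le_cons (fun i => ∑ j, (u j : Qbar) * V j i)
  have h5 := hV_homV V
  have h6 : 0 ≤ hV (homV V) := absLogHeight_nonneg _
  have ha0 := hA_nonneg a
  have h7 : C * (1 + hA a + hV (homV V)) ≤ |C| * (1 + hA a + hAV V) :=
    mul_le_mul (le_abs_self C) (by linarith) (by linarith) (abs_nonneg C)
  have h8 : (0 : ℝ) ≤ r := Nat.cast_nonneg r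
  have h9 := hAV_nonneg V
  push_cast at h3
  nlinarith [mul_nonneg h8 h9, mul_nonneg h8 ha0]

/-- **Finiteness on the members of a family of affine varieties.** -/
theorem nearOffU [Finite A] (F : Fin N → MvPolynomial (Fin n) (MvPolynomial A ℤ)) (d : ℕ)
    (hd1 : 1 ≤ d) (hd : ∀ i, (F i).totalDegree ≤ d)
    (G : MvPolynomial (Fin n) (MvPolynomial A ℤ)) (r : ℕ)
    (hcur : CurCondU F d G r) (Γ : Subgroup Qbarˣ) (hΓ : Γ.FG) :
    ∃ (B : ℝ) (e : ℕ), ∀ (a : A → Qbar) (V : Fin r → Fin n → Qbar),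
      (nearOff (fun i => fam a (F i)) (fam a G) Γ (eps d r) V).Finite ∧
      ((nearOff (fun i => fam a (F i)) (fam a G) Γ (eps d r) V).ncard : ℝ) ≤
        B * (1 + hA a + hAV V) ^ e := by
  classical
  obtain ⟨B, m, hB⟩ := mix_finiteU (r := r + 1) (fun i => hmg d (F i)) d hd1
    (fun i => ⟨d, le_rfl, hmg_homog d _ (hd _)⟩)
    (X 0 * hmg G.totalDegree G)
    ⟨_, (isHomogeneous_X _ (0 : Fin (n + 1))).mul (hmg_homog _ _ le_rfl)⟩ (TT r n)
    (pattern_condU F d G.totalDegree hd G le_rfl hcur) Γ hΓ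
  refine ⟨|B|, m, fun a V => ?_⟩
  have hfam : ∀ (e : ℕ) (p : MvPolynomial (Fin n) (MvPolynomial A ℤ)),
      fam a (hmg e p) = hmg e (fam a p) := fun e p => hmg_map _ e p
  have e1 : (fun i => fam a (hmg d (F i))) = fun i => hmg d (fam a (F i)) := by
    funext i
    exact hfam _ _
  have e2 : fam a (X 0 * hmg G.totalDegree G) = X 0 * hmg G.totalDegree (fam a G) := by
    rw [← hfam]
    unfold fam
    rw [map_mul, map_X]
  obtain ⟨hfin, hcard⟩ := hB a (homV V) (fun j i h => homV_zero V j i h)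
  let θ : (Fin n → Qbar) → Projectivization Qbar (Fin (n + 1) → Qbar) := fun x =>
    Projectivization.mk Qbar (Fin.cons 1 x : Fin (n + 1) → Qbar) (cons_one_ne x)
  have hmaps : ∀ x ∈ nearOff (fun i => fam a (F i)) (fam a G) Γ (eps d r) V,
      θ x ∈ mixPts (fun i => fam a (hmg d (F i))) (fam a (X 0 * hmg G.totalDegree G)) Γ
        (epsn ((d + 1) ^ (r + 1)) / d / 2) (homV V) := by
    rintro x ⟨hxo, u, s, hu, hs, hx⟩
    have e3 : Y215.SK.psum Finset.univ (homU u) (fun j i =>
        (Fin.cons 1 s : Fin (r + 1) → Qbar) j * homV V j i) =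
        (Fin.cons 1 x : Fin (n + 1) → Qbar) := by
      funext i
      unfold Y215.SK.psum
      rw [Fin.sum_univ_succ]
      refine Fin.cases ?_ (fun i => ?_) i
      · simp [homU, homV]
      · simp only [homU, homV, Fin.cons_zero, Fin.cons_succ, mul_zero, zero_add]
        rw [hx i]
        exact Finset.sum_congr rfl fun j _ => by ring
    refine ⟨homU u, (Fin.cons 1 s : Fin (r + 1) → Qbar), homU_hull Γ u hu, ?_, ?_, ?_, ?_⟩
    · exact lt_of_le_of_lt (cons_le_hA s) hs
    · rw [e3, e1, e2]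
      exact onOff_consA (fun i => fam a (F i)) d _
        (fun i => (totalDegree_fam_le a _).trans (hd i)) (fam a G) (totalDegree_fam_le a _) _ hxo
    · rw [e3]
      exact cons_one_ne x
    · show Projectivization.mk Qbar (Fin.cons 1 x : Fin (n + 1) → Qbar) (cons_one_ne x) = _
      congr 1
      exact e3.symm
  have hinj : Set.InjOn θ (nearOff (fun i => fam a (F i)) (fam a G) Γ (eps d r) V) := by
    intro x _ y _ hxy
    obtain ⟨c, hc⟩ := (Projectivization.mk_eq_mk_iff' Qbar _ _ (cons_one_ne x)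
      (cons_one_ne y)).1 hxy
    have h0 := congrFun hc 0
    rw [Pi.smul_apply, Fin.cons_zero, Fin.cons_zero, smul_eq_mul, mul_one] at h0
    rw [h0, one_smul] at hc
    funext i
    have := congrFun hc i.succ
    rw [Fin.cons_succ, Fin.cons_succ] at this
    exact this.symm
  have hfin' : (nearOff (fun i => fam a (F i)) (fam a G) Γ (eps d r) V).Finite :=
    Set.Finite.of_injOn hmaps hinj hfin
  refine ⟨hfin', ?_⟩
  have h1 := Set.ncard_le_ncard_of_injOn θ hmaps hinj hfin
  have h2 : ((nearOff (fun i => fam a (F i)) (fam a G) Γ (eps d r) V).ncard : ℝ) ≤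
      B * (1 + hA a + hV (homV V)) ^ m := le_trans (by exact_mod_cast h1) hcard
  refine h2.trans ?_
  have h3 : 0 ≤ hV (homV V) := absLogHeight_nonneg _
  have h4 := hV_homV V
  have h5 := hA_nonneg a
  exact mul_le_mul (le_abs_self B) (pow_le_pow_left₀ (by linarith) (by linarith) _)
    (by positivity) (abs_nonneg _)

end Pool.Agent.Q51.UF
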