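import Mathlib
import Pool.Agent.Q51.UF.Aff
import Pool.Agent.Q51.HG.PairsZ

set_option autoImplicit false
set_option linter.unusedSectionVars false

/-!
# Uniform height inequalities on general complete intersections and their complements
-/

namespace Pool.Agent.Q51.UF

open Finset NumberField
open MvPolynomial hiding psum
open Pool.Agent.H533R3.SL Pool.Agent.W235.RM Pool.Agent.Y215.AF
open Pool.Agent.Helper259.AbsHt Pool.Agent.Y215.SK Pool.Agent.Q51.HG
open Pool.Agent.Y215.SP (epsn)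
open Pool.Agent.TH182.VD (CI)

variable {n q r : ℕ}

instance finite_CI (d : Fin q → ℕ) : Finite (CI n d) := by
  have h1 : ∀ i, Finite {α : Fin (n + 1) →₀ ℕ // α.degree = d i} := fun i =>
    Finite.of_injective (fun α => (⟨α.1, mem_expo.2 α.2⟩ : {α // α ∈ expo n (d i)}))
      fun α β h => Subtype.ext (congrArg (fun x : {α // α ∈ expo n (d i)} => x.1) h)
  unfold CI
  infer_instance

/-- the equations of the complement of the boundary, over a commutative ring -/
noncomputable def pairER {R : Type} [CommRing R] (Z : Finset (Fin q)) (b0 : Fin q)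
    (F : Fin q → MvPolynomial (Fin (n + 1)) R) : Fin (q + q) → MvPolynomial (Fin ((n + 1) + q)) R :=
  Fin.append
    (fun i => if i ∈ Z then rename (Fin.castAdd q) (F i) else
      if i = b0 then rename (Fin.castAdd q) (F i) - 1 else
        rename (Fin.castAdd q) (F i) * X (Fin.natAdd (n + 1) i) - 1)
    (fun i => if i ∈ Z ∨ i = b0 then X (Fin.natAdd (n + 1) i) else 0)

theorem fam_pairER {L : Type} [Field L] {A : Type} (Z : Finset (Fin q)) (b0 : Fin q)
    (F : Fin q → MvPolynomial (Fin (n + 1)) (MvPolynomial A ℤ)) (a : A → L) :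
    (fun i => fam a (pairER Z b0 F i)) = pairE Z b0 (fun i => fam a (F i)) := by
  funext i
  unfold fam pairER pairE
  refine Fin.addCases (fun i => ?_) (fun i => ?_) i
  · rw [Fin.append_left, Fin.append_left]
    split_ifs
    · rw [map_rename]
    · rw [map_sub, map_rename, map_one]
    · rw [map_sub, map_mul, map_rename, map_one, map_X]
  · rw [Fin.append_right, Fin.append_right]
    split_ifs
    · rw [map_X]
    · rw [map_zero]

theorem pairER_deg {A : Type} (Z : Finset (Fin q)) (b0 : Fin q) (d : Fin q → ℕ)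
    (F : Fin q → MvPolynomial (Fin (n + 1)) (MvPolynomial A ℤ))
    (hF : ∀ i, (F i).IsHomogeneous (d i)) (i) :
    (pairER Z b0 F i).totalDegree ≤ ∑ i, d i + 1 := by
  have hdD : ∀ i, d i ≤ ∑ i, d i := fun i =>
    Finset.single_le_sum (f := d) (fun _ _ => Nat.zero_le _) (Finset.mem_univ i)
  have h1 : ∀ i, (rename (Fin.castAdd q) (F i)).totalDegree ≤ d i := fun i =>
    ((hF i).rename_isHomogeneous (f := Fin.castAdd q)).totalDegree_le
  unfold pairER
  refine Fin.addCases (fun i => ?_) (fun i => ?_) i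
  · rw [Fin.append_left]
    have h2 := h1 i
    have h3 := hdD i
    split_ifs with hi hib
    · omega
    · refine (totalDegree_sub _ _).trans (max_le (by omega) ?_)
      rw [totalDegree_one]
      omega
    · refine (totalDegree_sub _ _).trans (max_le ?_ ?_)
      · refine (totalDegree_mul _ _).trans ?_
        rw [totalDegree_X]
        omega
      · rw [totalDegree_one]
        omega
  · rw [Fin.append_right]
    split_ifs with hi
    · rw [totalDegree_X]
      omega
    · rw [totalDegree_zero]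
      omega

/-- the coefficients of the forms -/
def cof {L : Type} [CommRing L] (d : Fin q → ℕ) (F : Fin q → MvPolynomial (Fin (n + 1)) L) :
    CI n d → L := fun x => coeff x.2.1 (F x.1)

theorem spc_cof {L : Type} [CommRing L] (d : Fin q → ℕ)
    (F : Fin q → MvPolynomial (Fin (n + 1)) L) (p : MvPolynomial (CI n d) ℤ) :
    spc (cof d F) p = sp d F p := rfl

theorem fam_uF {L : Type} [CommRing L] (d : Fin q → ℕ)
    (F : Fin q → MvPolynomial (Fin (n + 1)) L) (hF : ∀ i, (F i).IsHomogeneous (d i)) (i : Fin q) :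
    fam (cof d F) (uF n d i) = F i :=
  map_uF d F hF i

theorem cof_fam {L : Type} [CommRing L] (d : Fin q → ℕ) (a : CI n d → L) :
    cof d (fun i => fam a (uF n d i)) = a := by
  funext x
  obtain ⟨i, α, hα⟩ := x
  unfold cof fam
  rw [coeff_map, coeff_uF d i α hα]
  unfold spc
  simp

theorem sp_fam {L : Type} [CommRing L] (d : Fin q → ℕ) (a : CI n d → L)
    (h : MvPolynomial (CI n d) ℤ) : sp d (fun i => fam a (uF n d i)) h = spc a h := by
  rw [← spc_cof, cof_fam]

theorem fam_uF_hom {L : Type} [CommRing L] (d : Fin q → ℕ) (a : CI n d → L) (i : Fin q) :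
    (fam a (uF n d i)).IsHomogeneous (d i) := (uF_homogeneous d i).map _

theorem curCond_pairs (d : Fin q → ℕ) (Z : Finset (Fin q)) (b0 : Fin q) (hb : b0 ∉ Z)
    (hd0 : 0 < d b0) (h : MvPolynomial (CI n d) ℤ)
    (hno : ∀ (K : Type) [Field K] (F : Fin q → MvPolynomial (Fin (n + 1)) K),
      (∀ i, (F i).IsHomogeneous (d i)) → sp d F h ≠ 0 → NoCurP r Z F) :
    CurCondU (pairER Z b0 (uF n d)) (∑ i, d i + 1) (C h) r := by
  intro L _ _ a c l hz hne
  by_contra hcon
  have h1 : spc a h ≠ 0 := by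
    intro h0
    apply hcon
    unfold fam
    rw [map_C, h0, map_zero, map_zero]
  have h2 := pair_curCond Z b0 hb d hd0 (fun i => fam a (uF n d i)) (fam_uF_hom d a) r
    (hno L _ (fam_uF_hom d a) (by rw [sp_fam]; exact h1)) L c l (fun i => by
      have h3 := congrFun (fam_pairER Z b0 (uF n d) a) i
      rw [← h3]
      exact hz i) hne
  rw [map_one] at h2
  exact one_ne_zero h2

theorem hA_cof_nonneg (d : Fin q → ℕ) (F : Fin q → MvPolynomial (Fin (n + 1)) Qbar) :
    0 ≤ hA (cof d F) := hA_nonneg _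

/-- **The uniform height inequality on general pairs for arbitrary values of the boundary forms.** -/
theorem pair_heightsU (d : Fin q → ℕ) (Z : Finset (Fin q)) (b0 : Fin q) (hb : b0 ∉ Z)
    (hd0 : 0 < d b0) (h : MvPolynomial (CI n d) ℤ)
    (hno : ∀ (K : Type) [Field K] (F : Fin q → MvPolynomial (Fin (n + 1)) K),
      (∀ i, (F i).IsHomogeneous (d i)) → sp d F h ≠ 0 → NoCurP (r + q) Z F)
    (Γ : Subgroup Qbarˣ) (hΓ : Γ.FG) :
    ∃ C : ℝ, 0 ≤ C ∧ ∀ (F : Fin q → MvPolynomial (Fin (n + 1)) Qbar)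
      (u : Fin r → Qbarˣ) (V : Fin r → Fin (n + 1) → Qbar) (w z : Fin q → Qbarˣ),
      (∀ i, (F i).IsHomogeneous (d i)) → sp d F h ≠ 0 →
      (∀ j, u j ∈ DivHull Γ) → (∀ i, i ∉ Z → w i ∈ DivHull Γ) →
      (∀ i ∈ Z, aeval (psum Finset.univ u V) (F i) = 0) →
      (∀ i, i ∉ Z → aeval (psum Finset.univ u V) (F i) = (w i : Qbar) * z i) →
      absLogHeight (psum Finset.univ u V) ≤
        C * (1 + hA (cof d F) + hAV V + ∑ i, if i ∈ Z then 0 else h1 (z i : Qbar)) := by
  classical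
  obtain ⟨C, hC⟩ := heightsOffU (pairER Z b0 (uF n d)) (∑ i, d i + 1)
    (pairER_deg Z b0 d (uF n d) (uF_homogeneous d)) (MvPolynomial.C h) (r + q)
    (curCond_pairs d Z b0 hb hd0 h hno) Γ hΓ
  set E : ℝ := 2 + ∑ i, (d i : ℝ) with hE
  have hE0 : 0 ≤ ∑ i, (d i : ℝ) := Finset.sum_nonneg fun i _ => Nat.cast_nonneg _
  refine ⟨|C| * E, by positivity, fun F u V w0 z0 hF hsp hu hw0 hZx hx => ?_⟩
  -- the values on `Z` do not matter
  set w : Fin q → Qbarˣ := fun i => if i ∈ Z then 1 else w0 i with hwdef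
  set z : Fin q → Qbarˣ := fun i => if i ∈ Z then 1 else z0 i with hzdef
  have hw : ∀ i, w i ∈ DivHull Γ := by
    intro i
    by_cases hi : i ∈ Z
    · rw [hwdef]
      simp only [if_pos hi]
      exact hull_one Γ
    · rw [hwdef]
      simp only [if_neg hi]
      exact hw0 i hi
  have hwx : ∀ i, i ∉ Z → aeval (psum Finset.univ u V) (F i) = ((w i * z i : Qbarˣ) : Qbar) := by
    intro i hi
    rw [hx i hi, hwdef, hzdef]
    simp only [if_neg hi]
    push_cast
    rfl
  obtain ⟨ρ, hρ, hρw⟩ := hull_root Γ (hw b0) hd0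
  obtain ⟨y, hy⟩ := IsAlgClosed.exists_pow_nat_eq ((z b0 : Qbarˣ) : Qbar) hd0
  have hy0 : y ≠ 0 := by
    rintro rfl
    rw [zero_pow hd0.ne'] at hy
    exact (z b0).ne_zero hy.symm
  set ρ' : Qbarˣ := Units.mk0 y hy0 with hρ'
  have hρz : ρ' ^ d b0 = z b0 := by
    ext
    push_cast
    exact hy
  have hρh : h1 (ρ' : Qbar) ≤ h1 (z b0 : Qbar) := by
    have h2 : h1 ((z b0 : Qbarˣ) : Qbar) = d b0 * h1 (ρ' : Qbar) := by
      rw [← hρz, ← h1_pow]
      push_cast
      rfl
    have h3 : (1 : ℝ) ≤ d b0 := by exact_mod_cast hd0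
    have h4 := h1_nonneg (ρ' : Qbar)
    rw [h2]
    nlinarith
  have hz := zptz_eq Z b0 d u V ρ ρ' w z
  have hz1 : (fun a => ∑ j, (zu d u ρ w j : Qbar) * zVz Z b0 d ρ' z V j a) =
      zpt Z b0 d (psum Finset.univ u V) (ρ * ρ') (fun i => w i * z i) := funext fun a => (hz a).symm
  have hsys : (fun i => fam (cof d F) (pairER Z b0 (uF n d) i)) = pairE Z b0 F := by
    rw [fam_pairER]
    congr 1
    funext i
    exact fam_uF d F hF i
  have h1' := hC (cof d F) (zu d u ρ w) (zVz Z b0 d ρ' z V) (fun j => by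
    unfold zu
    refine Fin.addCases (fun j => ?_) (fun i => ?_) j
    · rw [Fin.append_left]
      exact hull_mul Γ (hu j) (hull_inv Γ hρ)
    · rw [Fin.append_right]
      exact hull_mul Γ (hull_pow Γ hρ _) (hull_inv Γ (hw i))) (by
    rw [hz1, hsys]
    refine ⟨(zpt_off Z b0 hb F hF _ (ρ * ρ') (fun i => w i * z i)
      (by rw [mul_pow, hρw, hρz]) hZx hwx).1, ?_⟩
    unfold fam
    rw [map_C, aeval_C]
    exact hsp)
  rw [hz1] at h1'
  have h2 : absLogHeight (psum Finset.univ u V) ≤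
      hA (zpt Z b0 d (psum Finset.univ u V) (ρ * ρ') (fun i => w i * z i)) := by
    have h3 := absLogHeight_comp_le (fun a : Fin (n + 1) => (some (Fin.castAdd q a) :
      Option (Fin ((n + 1) + q)))) (fun o : Option (Fin ((n + 1) + q)) =>
        o.elim (1 : Qbar) (zpt Z b0 d (psum Finset.univ u V) (ρ * ρ') (fun i => w i * z i)))
    have h4 : (fun o : Option (Fin ((n + 1) + q)) =>
        o.elim (1 : Qbar) (zpt Z b0 d (psum Finset.univ u V) (ρ * ρ') (fun i => w i * z i))) ∘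
        (fun a : Fin (n + 1) => (some (Fin.castAdd q a) : Option (Fin ((n + 1) + q)))) =
        (((ρ * ρ')⁻¹ : Qbarˣ) : Qbar) • psum Finset.univ u V := by
      funext a
      simp [zpt]
    rw [h4, absLogHeight_smul _ (Units.ne_zero _)] at h3
    exact h3
  have h5 := zVz_height Z b0 d ρ' z V
  have h6 := hAV_nonneg (zVz Z b0 d ρ' z V)
  have h7 := hAV_nonneg V
  have h7' := hA_cof_nonneg d F
  -- the heights of the values
  have hzz : ∀ i, (if i ∈ Z then 0 else h1 (z0 i : Qbar)) = h1 (z i : Qbar) := by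
    intro i
    rw [hzdef]
    by_cases hi : i ∈ Z
    · simp only [if_pos hi]
      push_cast
      exact h1_one.symm
    · simp only [if_neg hi]
  have hS : ∑ i, (if i ∈ Z then 0 else h1 (z0 i : Qbar)) = ∑ i, h1 (z i : Qbar) :=
    Finset.sum_congr rfl fun i _ => hzz i
  rw [hS]
  have hb1 : h1 (z b0 : Qbar) ≤ ∑ i, h1 (z i : Qbar) :=
    Finset.single_le_sum (f := fun i => h1 (z i : Qbar)) (fun i _ => h1_nonneg _)
      (Finset.mem_univ b0)
  have h8 : h1 (ρ' : Qbar) + ∑ i, (d i * h1 (ρ' : Qbar) +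
      if i ∈ Z ∨ i = b0 then 0 else h1 (z i : Qbar)) ≤ E * ∑ i, h1 (z i : Qbar) := by
    rw [Finset.sum_add_distrib, ← Finset.sum_mul]
    have h9 : ∑ i, (if i ∈ Z ∨ i = b0 then 0 else h1 (z i : Qbar)) ≤ ∑ i, h1 (z i : Qbar) :=
      Finset.sum_le_sum fun i _ => by
        split_ifs
        · exact h1_nonneg _
        · exact le_rfl
    have h10 : h1 (ρ' : Qbar) ≤ ∑ i, h1 (z i : Qbar) := hρh.trans hb1
    have h11 : (∑ i, (d i : ℝ)) * h1 (ρ' : Qbar) ≤ (∑ i, (d i : ℝ)) * ∑ i, h1 (z i : Qbar) :=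
      mul_le_mul_of_nonneg_left h10 hE0
    rw [hE]
    linarith
  have h12 : 0 ≤ ∑ i, h1 (z i : Qbar) := Finset.sum_nonneg fun i _ => h1_nonneg _
  have h13 : C * (1 + hA (cof d F) + hAV (zVz Z b0 d ρ' z V)) ≤
      |C| * (1 + hA (cof d F) + hAV (zVz Z b0 d ρ' z V)) :=
    mul_le_mul_of_nonneg_right (le_abs_self C) (by linarith)
  have hE1 : 1 ≤ E := by linarith
  have h14 : 1 + hA (cof d F) + hAV (zVz Z b0 d ρ' z V) ≤
      E * (1 + hA (cof d F) + hAV V + ∑ i, h1 (z i : Qbar)) := by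
    nlinarith
  refine h2.trans (h1'.trans (h13.trans ?_))
  rw [mul_assoc]
  exact mul_le_mul_of_nonneg_left h14 (abs_nonneg C)

/-- **Uniform finiteness on general pairs.** -/
theorem pair_nearU (d : Fin q → ℕ) (Z : Finset (Fin q)) (b0 : Fin q) (hb : b0 ∉ Z)
    (hd0 : 0 < d b0) (h : MvPolynomial (CI n d) ℤ)
    (hno : ∀ (K : Type) [Field K] (F : Fin q → MvPolynomial (Fin (n + 1)) K),
      (∀ i, (F i).IsHomogeneous (d i)) → sp d F h ≠ 0 → NoCurP (r + q) Z F)
    (Γ : Subgroup Qbarˣ) (hΓ : Γ.FG) :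
    ∃ (B : ℝ) (e : ℕ), 0 ≤ B ∧ ∀ (F : Fin q → MvPolynomial (Fin (n + 1)) Qbar)
      (V : Fin r → Fin (n + 1) → Qbar),
      (∀ i, (F i).IsHomogeneous (d i)) → sp d F h ≠ 0 →
      (pairNear Z F Γ (Pool.Agent.Y215.AF.eps (∑ i, d i + 1) (r + q)) V).Finite ∧
      ((pairNear Z F Γ (Pool.Agent.Y215.AF.eps (∑ i, d i + 1) (r + q)) V).ncard : ℝ) ≤
        B * (1 + hA (cof d F) + hAV V) ^ e := by
  classical
  obtain ⟨B, e, hB⟩ := nearOffU (pairER Z b0 (uF n d)) (∑ i, d i + 1) (by omega)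
    (pairER_deg Z b0 d (uF n d) (uF_homogeneous d)) (MvPolynomial.C h) (r + q)
    (curCond_pairs d Z b0 hb hd0 h hno) Γ hΓ
  refine ⟨|B|, e, abs_nonneg _, fun F V hF hsp => ?_⟩
  obtain ⟨hfin, hcard⟩ := hB (cof d F) (zV Z b0 V)
  have hsys : (fun i => fam (cof d F) (pairER Z b0 (uF n d) i)) = pairE Z b0 F := by
    rw [fam_pairER]
    congr 1
    funext i
    exact fam_uF d F hF i
  rw [hsys] at hfin hcard
  set G : MvPolynomial (Fin ((n + 1) + q)) Qbar := fam (cof d F) (MvPolynomial.C h) with hG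
  set ε := Pool.Agent.Y215.AF.eps (∑ i, d i + 1) (r + q) with hε
  let θ : (Fin ((n + 1) + q) → Qbar) → Projectivization Qbar (Fin (n + 1) → Qbar) := fun z =>
    if h : (fun a => z (Fin.castAdd q a)) ≠ 0 then Projectivization.mk Qbar _ h
    else Projectivization.mk Qbar (fun _ => 1) (fun h => one_ne_zero (congrFun h 0))
  have hsub : pairNear Z F Γ ε V ⊆ θ '' (nearOff (pairE Z b0 F) G Γ ε (zV Z b0 V)) := by
    rintro P ⟨u, s, h0, hu, hs, rfl, hx⟩
    obtain ⟨ρ, w, hρ, hw, hρw, hwx⟩ := pairPt_data Z b0 hb F hd0 Γ _ hx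
    refine ⟨zpt Z b0 d (fun a => ∑ j, (u j : Qbar) * s j * V j a) ρ w, ⟨?_, zu d u ρ w, zs s,
      fun j => ?_, (zs_height s).trans_lt hs, zpt_eq Z b0 d u s V ρ w⟩, ?_⟩
    · refine ⟨(zpt_off Z b0 hb F hF _ ρ w hρw hx.1 hwx).1, ?_⟩
      rw [hG]
      unfold fam
      rw [map_C, aeval_C]
      exact hsp
    · unfold zu
      refine Fin.addCases (fun j => ?_) (fun i => ?_) j
      · rw [Fin.append_left]
        exact hull_mul Γ (hu j) (hull_inv Γ hρ)
      · rw [Fin.append_right]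
        exact hull_mul Γ (hull_pow Γ hρ _) (hull_inv Γ (hw i))
    · have h1 : (fun a => zpt Z b0 d (fun a => ∑ j, (u j : Qbar) * s j * V j a) ρ w
          (Fin.castAdd q a)) = ((ρ⁻¹ : Qbarˣ) : Qbar) • fun a => ∑ j, (u j : Qbar) * s j * V j a := by
        funext a
        simp [zpt]
      have h2 : (fun a => zpt Z b0 d (fun a => ∑ j, (u j : Qbar) * s j * V j a) ρ w
          (Fin.castAdd q a)) ≠ 0 := by
        rw [h1]
        exact smul_ne_zero (Units.ne_zero _) h0
      simp only [θ, dif_pos h2]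
      rw [Projectivization.mk_eq_mk_iff']
      exact ⟨((ρ⁻¹ : Qbarˣ) : Qbar), h1.symm⟩
  have hfin' : (pairNear Z F Γ ε V).Finite := (hfin.image θ).subset hsub
  refine ⟨hfin', ?_⟩
  have h1 : (pairNear Z F Γ ε V).ncard ≤
      (nearOff (pairE Z b0 F) G Γ ε (zV Z b0 V)).ncard :=
    (Set.ncard_le_ncard hsub (hfin.image θ)).trans (Set.ncard_image_le hfin)
  have h2 : ((pairNear Z F Γ ε V).ncard : ℝ) ≤ B * (1 + hA (cof d F) + hAV (zV Z b0 V)) ^ e :=
    le_trans (by exact_mod_cast h1) hcard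
  refine h2.trans ?_
  have h5 := zV_height Z b0 V
  have h6 := hAV_nonneg (zV Z b0 V)
  have h7 := hA_cof_nonneg d F
  exact mul_le_mul (le_abs_self B) (pow_le_pow_left₀ (by linarith) (by linarith) _)
    (by positivity) (abs_nonneg _)

/-! ### Closed complete intersections -/

theorem curCond_proj (d : Fin q → ℕ) (h : MvPolynomial (CI n d) ℤ)
    (hno : ∀ (K : Type) [Field K] (F : Fin q → MvPolynomial (Fin (n + 1)) K),
      (∀ i, (F i).IsHomogeneous (d i)) → sp d F h ≠ 0 → NoCurP r Finset.univ F) :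
    ∀ (L : Type) [Field L] [CharZero L] (a : CI n d → L) (c : Fin r → Fin (n + 1) → L)
        (l : Fin r → ℕ),
        (∀ j i, (j, i) ∉ (Set.univ : Set (Fin r × Fin (n + 1))) → c j i = 0) →
        (∀ i, MvPolynomial.aeval (cur c l) (fam a (uF n d i)) = 0) →
        (∃ i i', cur c l i * Polynomial.C (∑ j, c j i') ≠
          cur c l i' * Polynomial.C (∑ j, c j i)) →
        eval (fun i => ∑ j, c j i) (fam a (MvPolynomial.C h)) = 0 := by
  intro L _ _ a c l _ hz hne
  by_contra hcon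
  have h1 : spc a h ≠ 0 := by
    intro h0
    apply hcon
    unfold fam
    rw [map_C, h0, map_zero, map_zero]
  obtain ⟨i, i', hi⟩ := hne
  exact absurd (hno L (fun i => fam a (uF n d i)) (fam_uF_hom d a) (by rw [sp_fam]; exact h1) L c l
    (fun i _ => hz i) (fun i hi => absurd (Finset.mem_univ i) hi) i i') hi

/-- **The uniform height inequality on general complete intersections.** -/
theorem proj_heightsU (d : Fin q → ℕ) (h : MvPolynomial (CI n d) ℤ)
    (hno : ∀ (K : Type) [Field K] (F : Fin q → MvPolynomial (Fin (n + 1)) K),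
      (∀ i, (F i).IsHomogeneous (d i)) → sp d F h ≠ 0 → NoCurP r Finset.univ F)
    (Γ : Subgroup Qbarˣ) (hΓ : Γ.FG) :
    ∃ C : ℝ, 0 ≤ C ∧ ∀ (F : Fin q → MvPolynomial (Fin (n + 1)) Qbar)
      (u : Fin r → Qbarˣ) (V : Fin r → Fin (n + 1) → Qbar),
      (∀ i, (F i).IsHomogeneous (d i)) → sp d F h ≠ 0 → (∀ j, u j ∈ DivHull Γ) →
      psum Finset.univ u V ≠ 0 → (∀ i, aeval (psum Finset.univ u V) (F i) = 0) →
      absLogHeight (psum Finset.univ u V) ≤ C * (1 + hA (cof d F) + hV V) := by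
  classical
  obtain ⟨C, hC⟩ := mult_boundU (r := r) (uF n d) (fun i => ⟨d i, uF_homogeneous d i⟩)
    (MvPolynomial.C h) ⟨0, isHomogeneous_C _ _⟩ Set.univ (curCond_proj d h hno) Γ hΓ
  refine ⟨|C| + (r + 1) + 1, by positivity, fun F u V hF hsp hu hx0 hx => ?_⟩
  have hsys : (fun i => fam (cof d F) (uF n d i)) = F := by
    funext i
    exact fam_uF d F hF i
  obtain ⟨J, hJ, hh⟩ := hC (cof d F) u V (fun j a h => absurd (Set.mem_univ _) h) hu
    ⟨hx0, by rw [hsys]; exact hx, by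
      unfold fam
      rw [map_C, aeval_C]
      exact hsp⟩
  obtain ⟨c, hc, hc2⟩ := good_prop J u V hJ hx0
  have h3 := psum_height J u V
  rw [hc2, absLogHeight_smul _ hc] at h3
  have h6 : 0 ≤ hV V := absLogHeight_nonneg _
  have h6' := hA_cof_nonneg d F
  have h7 : C * (1 + hA (cof d F) + hV V) ≤ |C| * (1 + hA (cof d F) + hV V) :=
    mul_le_mul_of_nonneg_right (le_abs_self C) (by linarith)
  have h8 : (0 : ℝ) ≤ r := Nat.cast_nonneg r
  nlinarith [mul_nonneg h8 h6, mul_nonneg h8 h6']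

/-- **Uniform finiteness on general complete intersections.** -/
theorem proj_nearU (d : Fin q → ℕ) (h : MvPolynomial (CI n d) ℤ)
    (hno : ∀ (K : Type) [Field K] (F : Fin q → MvPolynomial (Fin (n + 1)) K),
      (∀ i, (F i).IsHomogeneous (d i)) → sp d F h ≠ 0 → NoCurP r Finset.univ F)
    (Γ : Subgroup Qbarˣ) (hΓ : Γ.FG) (D : ℕ) (hD : 1 ≤ D) (hdD : ∀ i, d i ≤ D) :
    ∃ (B : ℝ) (e : ℕ), 0 ≤ B ∧ ∀ (F : Fin q → MvPolynomial (Fin (n + 1)) Qbar)
      (V : Fin r → Fin (n + 1) → Qbar),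
      (∀ i, (F i).IsHomogeneous (d i)) → sp d F h ≠ 0 →
      (mixPts F 1 Γ (epsn ((D + 1) ^ r) / D / 2) V).Finite ∧
      ((mixPts F 1 Γ (epsn ((D + 1) ^ r) / D / 2) V).ncard : ℝ) ≤
        B * (1 + hA (cof d F) + hV V) ^ e := by
  classical
  obtain ⟨B, e, hB⟩ := mix_finiteU (r := r) (uF n d) D hD
    (fun i => ⟨d i, hdD i, uF_homogeneous d i⟩)
    (MvPolynomial.C h) ⟨0, isHomogeneous_C _ _⟩ Set.univ (curCond_proj d h hno) Γ hΓ
  refine ⟨|B|, e, abs_nonneg _, fun F V hF hsp => ?_⟩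
  have hsys : (fun i => fam (cof d F) (uF n d i)) = F := by
    funext i
    exact fam_uF d F hF i
  obtain ⟨h1, h2⟩ := hB (cof d F) V (fun j a h => absurd (Set.mem_univ _) h)
  rw [hsys] at h1 h2
  have hset : mixPts F 1 Γ (epsn ((D + 1) ^ r) / D / 2) V =
      mixPts F (fam (cof d F) (MvPolynomial.C h)) Γ (epsn ((D + 1) ^ r) / D / 2) V := by
    unfold mixPts OnOff
    have h3 : ∀ x : Fin (n + 1) → Qbar, (aeval x (1 : MvPolynomial (Fin (n + 1)) Qbar) ≠ 0) =
        (aeval x (fam (cof d F) (MvPolynomial.C h)) ≠ 0) := by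
      intro x
      apply propext
      constructor
      · intro _
        unfold fam
        rw [map_C, aeval_C]
        exact hsp
      · intro _
        rw [map_one]
        exact one_ne_zero
    simp only [h3]
  rw [hset]
  refine ⟨h1, h2.trans ?_⟩
  have h4 := hA_cof_nonneg d F
  have h6 : 0 ≤ hV V := absLogHeight_nonneg _
  exact mul_le_mul_of_nonneg_right (le_abs_self B) (by positivity)

end Pool.Agent.Q51.UF
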