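import Mathlib
import Pool.Agent.Q51.UF.AffK
import Pool.Agent.H533R3.SL.Asm

set_option autoImplicit false
set_option linter.unusedSectionVars false

/-!
# The exceptional set of a family: all nonconstant curves with `r` terms in the members of a family
with generic member not uniruled lie in one hypersurface
-/

namespace Pool.Agent.Q51.UF.K

open Finset MvPolynomial
open Pool.Agent.H533R3.SL (cur cur_eval_one cur_zero_transfer cur_const_transfer pat pat_rep rep
  exists_exponent)

variable {n r : ℕ} {A k : Type} [Field k]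

/-- The family with the ideal `I` (in the ring of the polynomials in the coordinates and the
parameters) is generically uniruled: over some extension field `L` of `k` there are parameters `a` and
a nonconstant map `p` from the line to the member of the family, given by polynomials, such that
`(a, p 1)` is a generic point of the family over `k`. -/
def FamUniruled (I : Ideal (MvPolynomial (Fin (n + 1)) (MvPolynomial A k))) : Prop :=
  ∃ (L : Type) (_ : Field L) (ι : k →+* L) (a : A → L) (p : Fin (n + 1) → Polynomial L),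
    (∀ F ∈ I, aeval p (fam ι a F) = 0) ∧
    (∀ G : MvPolynomial (Fin (n + 1)) (MvPolynomial A k), (∃ e, G.IsHomogeneous e) → G ∉ I →
      eval (fun i => (p i).eval 1) (fam ι a G) ≠ 0) ∧
    ∃ i i', p i * Polynomial.C ((p i').eval 1) ≠ p i' * Polynomial.C ((p i).eval 1)

theorem map_cur {R L : Type} [CommRing R] [CommRing L] (s : R →+* L)
    (c : Fin r → Fin (n + 1) → R) (l : Fin r → ℕ) (i : Fin (n + 1)) :
    Polynomial.map s (cur c l i) = cur (fun j i => s (c j i)) l i := by
  unfold Pool.Agent.H533R3.SL.cur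
  rw [Polynomial.map_sum]
  refine Finset.sum_congr rfl fun j _ => ?_
  simp

theorem map_aeval_cur {R L : Type} [CommRing R] [CommRing L] (s : R →+* L)
    (c : Fin r → Fin (n + 1) → R) (l : Fin r → ℕ) (F : MvPolynomial (Fin (n + 1)) R) :
    Polynomial.map s (aeval (cur c l) F) =
      aeval (cur (fun j i => s (c j i)) l) (MvPolynomial.map s F) := by
  rw [aeval_def, aeval_def, eval₂_map]
  have h1 := hom_eval₂ F (algebraMap R (Polynomial R)) (Polynomial.mapRingHom s) (cur c l)
  rw [Polynomial.coe_mapRingHom] at h1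
  rw [h1]
  have h2 : (Polynomial.mapRingHom s).comp (algebraMap R (Polynomial R)) =
      (algebraMap L (Polynomial L)).comp s := by
    ext x
    simp
  rw [h2]
  congr 1
  funext i
  exact map_cur s c l i

/-- for a fixed vector of exponents, the nonconstant curves lie in a hypersurface -/
theorem exists_GF (FF : Set (MvPolynomial (Fin (n + 1)) (MvPolynomial A k)))
    (hprime : (Ideal.span FF).IsPrime) (hnu : ¬ FamUniruled (Ideal.span FF)) (l : Fin r → ℕ)
    (i i' : Fin (n + 1)) (w : ℕ) :
    ∃ G : MvPolynomial (Fin (n + 1)) (MvPolynomial A k), (∃ e, G.IsHomogeneous e) ∧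
      G ∉ Ideal.span FF ∧
      ∀ (L : Type) [Field L] (ι : k →+* L) (a : A → L) (c : Fin r → Fin (n + 1) → L),
        (∀ F ∈ FF, MvPolynomial.aeval (cur c l) (fam ι a F) = 0) →
        (cur c l i * Polynomial.C (∑ j, c j i') - cur c l i' * Polynomial.C (∑ j, c j i)).coeff w
          ≠ 0 → eval (fun i => ∑ j, c j i) (fam ι a G) = 0 := by
  classical
  by_contra hcon
  push Not at hcon
  let R : Type := MvPolynomial (A ⊕ (Fin r × Fin (n + 1))) k
  let ιR : k →+* R := MvPolynomial.C
  let at' : A → R := fun α => MvPolynomial.X (Sum.inl α)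
  let ct : Fin r → Fin (n + 1) → R := fun j i => MvPolynomial.X (Sum.inr (j, i))
  let xt : Fin (n + 1) → R := fun i => ∑ j, ct j i
  let N : R := (cur ct l i * Polynomial.C (xt i') - cur ct l i' * Polynomial.C (xt i)).coeff w
  let J : Ideal R := Ideal.span {b | ∃ F ∈ FF, ∃ t : ℕ,
    b = (MvPolynomial.aeval (cur ct l) (fam ιR at' F)).coeff t}
  -- specialisation
  have hFs : ∀ (L : Type) [Field L] (s : R →+* L)
      (F : MvPolynomial (Fin (n + 1)) (MvPolynomial A k)),
      Polynomial.map s (MvPolynomial.aeval (cur ct l) (fam ιR at' F)) =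
        MvPolynomial.aeval (cur (fun j i => s (ct j i)) l)
          (fam (s.comp ιR) (fun α => s (at' α)) F) := by
    intro L _ s F
    rw [map_aeval_cur, fam_map]
  have hxs : ∀ (L : Type) [Field L] (s : R →+* L)
      (G : MvPolynomial (Fin (n + 1)) (MvPolynomial A k)),
      s (eval xt (fam ιR at' G)) =
        eval (fun i => ∑ j, s (ct j i)) (fam (s.comp ιR) (fun α => s (at' α)) G) := by
    intro L _ s G
    rw [← fam_map, eval_map, ← coe_eval₂Hom, ← RingHom.comp_apply]
    congr 1
    refine MvPolynomial.ringHom_ext (fun b => ?_) (fun i => ?_)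
    · simp
    · simp [xt, map_sum]
  have hNs : ∀ (L : Type) [Field L] (s : R →+* L),
      s N = (cur (fun j i => s (ct j i)) l i * Polynomial.C (∑ j, s (ct j i')) -
        cur (fun j i => s (ct j i)) l i' * Polynomial.C (∑ j, s (ct j i))).coeff w := by
    intro L _ s
    have h1 : s N = (Polynomial.map s (cur ct l i * Polynomial.C (xt i') -
        cur ct l i' * Polynomial.C (xt i))).coeff w := by
      rw [Polynomial.coeff_map]
    rw [h1, Polynomial.map_sub, Polynomial.map_mul, Polynomial.map_mul, map_cur, map_cur,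
      Polynomial.map_C, Polynomial.map_C]
    simp only [xt, map_sum]
  have h1I : (1 : MvPolynomial (Fin (n + 1)) (MvPolynomial A k)) ∉ Ideal.span FF := by
    intro h
    exact hprime.ne_top ((Ideal.eq_top_iff_one _).2 h)
  have hfam1 : ∀ (S : Type) [CommRing S] (ι : k →+* S) (a : A → S),
      fam ι a (1 : MvPolynomial (Fin (n + 1)) (MvPolynomial A k)) = 1 := by
    intro S _ ι a
    unfold fam
    rw [map_one]
  have hfamm : ∀ (S : Type) [CommRing S] (ι : k →+* S) (a : A → S)
      (G G' : MvPolynomial (Fin (n + 1)) (MvPolynomial A k)),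
      fam ι a (G * G') = fam ι a G * fam ι a G' := by
    intro S _ ι a G G'
    unfold fam
    rw [map_mul]
  let M : Submonoid R :=
    { carrier := {b | ∃ (G : MvPolynomial (Fin (n + 1)) (MvPolynomial A k)) (t : ℕ),
        (∃ e, G.IsHomogeneous e) ∧ G ∉ Ideal.span FF ∧ b = eval xt (fam ιR at' G) * N ^ t}
      one_mem' := ⟨1, 0, ⟨0, MvPolynomial.isHomogeneous_one _ _⟩, h1I, by
        rw [hfam1, map_one, pow_zero, one_mul]⟩
      mul_mem' := by
        rintro a b ⟨G, t, ⟨e, he⟩, hG, rfl⟩ ⟨G', t', ⟨e', he'⟩, hG', rfl⟩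
        refine ⟨G * G', t + t', ⟨e + e', he.mul he'⟩, ?_, ?_⟩
        · intro h
          rcases hprime.mem_or_mem h with h | h
          · exact hG h
          · exact hG' h
        · rw [hfamm, map_mul, pow_add]
          ring }
  have hdisj : Disjoint (J : Set R) M := by
    rw [Set.disjoint_left]
    rintro b hbJ ⟨G, t, hGh, hGI, rfl⟩
    obtain ⟨L, iL, ι, a, c, hz, hN, hG⟩ := hcon G hGh hGI
    let s : R →+* L := eval₂Hom ι (Sum.elim a (fun q : Fin r × Fin (n + 1) => c q.1 q.2))
    have hsc : (fun j i => s (ct j i)) = c := by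
      funext j i
      change eval₂ ι (Sum.elim a (fun q : Fin r × Fin (n + 1) => c q.1 q.2))
        (MvPolynomial.X (Sum.inr (j, i))) = c j i
      rw [eval₂_X, Sum.elim_inr]
    have hsa : (fun α => s (at' α)) = a := by
      funext α
      change eval₂ ι (Sum.elim a (fun q : Fin r × Fin (n + 1) => c q.1 q.2))
        (MvPolynomial.X (Sum.inl α)) = a α
      rw [eval₂_X, Sum.elim_inl]
    have hsι : s.comp ιR = ι := by
      ext b
      change eval₂ ι (Sum.elim a (fun q : Fin r × Fin (n + 1) => c q.1 q.2))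
        (MvPolynomial.C b) = ι b
      rw [eval₂_C]
    have hsc' : ∀ i, ∑ j, s (ct j i) = ∑ j, c j i := by
      intro i
      exact Finset.sum_congr rfl fun j _ => congrFun (congrFun hsc j) i
    have hJ : J ≤ RingHom.ker s := by
      rw [Ideal.span_le]
      rintro _ ⟨F, hF, t, rfl⟩
      show s _ = 0
      have h1 := hFs L s F
      rw [hsc, hsa, hsι, hz F hF] at h1
      have h2 := congrArg (fun P => Polynomial.coeff P t) h1
      simp only [Polynomial.coeff_map, Polynomial.coeff_zero] at h2
      exact h2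
    have h2 : s (eval xt (fam ιR at' G) * N ^ t) = 0 := hJ hbJ
    rw [map_mul, map_pow, hxs, hNs, hsa, hsι, hsc] at h2
    simp only [hsc'] at h2
    exact mul_ne_zero hG (pow_ne_zero _ hN) h2
  obtain ⟨P, hP, hJP, hPM⟩ := Ideal.exists_le_prime_disjoint J M hdisj
  let L : Type := FractionRing (R ⧸ P)
  let s : R →+* L := (algebraMap (R ⧸ P) (FractionRing (R ⧸ P))).comp (Ideal.Quotient.mk P)
  have hs0 : ∀ a : R, s a = 0 ↔ a ∈ P := by
    intro a
    show algebraMap (R ⧸ P) (FractionRing (R ⧸ P)) (Ideal.Quotient.mk P a) = 0 ↔ _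
    rw [FaithfulSMul.algebraMap_eq_zero_iff, Ideal.Quotient.eq_zero_iff_mem]
  apply hnu
  refine ⟨L, inferInstance, s.comp ιR, fun α => s (at' α), cur (fun j i => s (ct j i)) l,
    ?_, ?_, ?_⟩
  · have hI : Ideal.span FF ≤ RingHom.ker
        ((MvPolynomial.aeval (R := L) (cur (fun j i => s (ct j i)) l)).toRingHom.comp
          (MvPolynomial.map (spc (s.comp ιR) (fun α => s (at' α))))) := by
      rw [Ideal.span_le]
      intro F hF
      show MvPolynomial.aeval (cur (fun j i => s (ct j i)) l)
        (fam (s.comp ιR) (fun α => s (at' α)) F) = 0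
      rw [← hFs L s F]
      ext t
      rw [Polynomial.coeff_map, Polynomial.coeff_zero]
      refine (hs0 _).2 (hJP (Ideal.subset_span ⟨F, hF, t, rfl⟩))
    intro F hF
    exact hI hF
  · intro G hGh hGI h0
    have h1 : (fun i => (cur (fun j i => s (ct j i)) l i).eval 1) =
        fun i => ∑ j, s (ct j i) := by
      funext i
      exact cur_eval_one _ _ _
    rw [h1, ← hxs L s G, hs0] at h0
    exact Set.disjoint_left.1 hPM h0 ⟨G, 0, hGh, hGI, by simp⟩
  · refine ⟨i, i', fun h0 => ?_⟩
    rw [cur_eval_one, cur_eval_one] at h0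
    have h1 : s N = 0 := by
      rw [hNs, h0, sub_self, Polynomial.coeff_zero]
    rw [hs0] at h1
    refine Set.disjoint_left.1 hPM h1 ⟨1, 1, ⟨0, MvPolynomial.isHomogeneous_one _ _⟩, h1I, ?_⟩
    rw [hfam1, map_one, pow_one, one_mul]

/-- all the nonconstant curves with `r` terms in the members of the family lie in one hypersurface -/
theorem exists_hyperF (FF : Set (MvPolynomial (Fin (n + 1)) (MvPolynomial A k)))
    (hprime : (Ideal.span FF).IsPrime) (hnu : ¬ FamUniruled (Ideal.span FF)) (d : ℕ) (hd : 1 ≤ d)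
    (hFF : ∀ F ∈ FF, ∃ e, e ≤ d ∧ F.IsHomogeneous e) (r : ℕ) :
    ∃ G : MvPolynomial (Fin (n + 1)) (MvPolynomial A k), (∃ e, G.IsHomogeneous e) ∧
      G ∉ Ideal.span FF ∧
      ∀ (L : Type) [Field L] (ι : k →+* L) (a : A → L) (c : Fin r → Fin (n + 1) → L)
        (l : Fin r → ℕ),
        (∀ F ∈ FF, MvPolynomial.aeval (cur c l) (fam ι a F) = 0) →
        (∃ i i', cur c l i * Polynomial.C (∑ j, c j i') ≠
          cur c l i' * Polynomial.C (∑ j, c j i)) →
        eval (fun i => ∑ j, c j i) (fam ι a G) = 0 := by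
  classical
  choose H hH1 hH2 hH3 using fun (q : Set ((Fin r → Fin (d + 1)) × (Fin r → Fin (d + 1))) ×
    Fin (n + 1) × Fin (n + 1) × Fin r) =>
    exists_GF FF hprime hnu (rep d q.1) q.2.1 q.2.2.1 (rep d q.1 q.2.2.2)
  choose E hE using hH1
  refine ⟨∏ q, H q, ⟨∑ q, E q, MvPolynomial.IsHomogeneous.prod _ _ _ fun q _ => hE q⟩, ?_, ?_⟩
  · rw [hprime.prod_mem_iff]
    push Not
    intro q _
    exact hH2 q
  · intro L _ ι a c l hz ⟨i, i', hc⟩
    have hp := pat_rep d l
    have hz' : ∀ F ∈ FF, MvPolynomial.aeval (cur c (rep d (pat d l))) (fam ι a F) = 0 := by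
      intro F hF
      obtain ⟨e, he, hFe⟩ := hFF F hF
      exact cur_zero_transfer d l _ hp.symm c (fam ι a F) e he (hFe.map _) (hz F hF)
    have hc' : cur c (rep d (pat d l)) i * Polynomial.C (∑ j, c j i') ≠
        cur c (rep d (pat d l)) i' * Polynomial.C (∑ j, c j i) := by
      intro h
      exact hc (cur_const_transfer d hd _ l hp c i i' _ _ h)
    obtain ⟨j, hj⟩ := exists_exponent c _ i i' _ _ hc'
    have h1 := hH3 (pat d l, i, i', j) L ι a c hz' hj
    unfold fam at h1 ⊢
    rw [map_prod, map_prod]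
    exact Finset.prod_eq_zero (Finset.mem_univ (pat d l, i, i', j)) h1

end Pool.Agent.Q51.UF.K
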