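import Mathlib
import Pool.Agent.Q51.UF.ExcK

set_option autoImplicit false
set_option linter.unusedSectionVars false

/-!
# Nonconstant curves have points of large height
-/

namespace Pool.Agent.Q51.UF.K

open Finset MvPolynomial NumberField
open Pool.Agent.Helper259.AbsHt Pool.Agent.Y215.SK Pool.Agent.Y215.AF
open Pool.Agent.H533R3.SL (cur cur_eval_one)

variable {n r : ℕ}

theorem pow_two_inj : Function.Injective (fun m : ℕ => (2 : Qbar) ^ m) := by
  intro m m' h
  have h1 : ((2 ^ m : ℕ) : Qbar) = ((2 ^ m' : ℕ) : Qbar) := by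
    push_cast
    exact h
  exact Nat.pow_right_injective le_rfl (by exact_mod_cast h1)

/-- the parameters `2 ^ m` for which a nonzero polynomial does not vanish -/
theorem good_infinite (g : Polynomial Qbar) (hg : g ≠ 0) :
    {m : ℕ | g.eval ((2 : Qbar) ^ m) ≠ 0}.Infinite := by
  classical
  have h1 : {m : ℕ | g.eval ((2 : Qbar) ^ m) = 0}.Finite := by
    have h2 : {m : ℕ | g.eval ((2 : Qbar) ^ m) = 0} ⊆
        (fun m : ℕ => (2 : Qbar) ^ m) ⁻¹' (g.roots.toFinset : Set Qbar) := by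
      intro m hm
      simp only [Set.mem_preimage, Finset.mem_coe, Multiset.mem_toFinset]
      exact (Polynomial.mem_roots hg).2 hm
    exact (Set.Finite.preimage pow_two_inj.injOn (Finset.finite_toSet _)).subset h2
  have h3 : {m : ℕ | g.eval ((2 : Qbar) ^ m) ≠ 0} = {m : ℕ | g.eval ((2 : Qbar) ^ m) = 0}ᶜ := rfl
  rw [h3]
  exact h1.infinite_compl

theorem hA_div_le (x : Fin (n + 1) → Qbar) (i0 : Fin (n + 1)) (h0 : x i0 ≠ 0) :
    hA (fun i => x i / x i0) ≤ absLogHeight x := by
  have h1 := absLogHeight_comp_le (fun o : Option (Fin (n + 1)) => o.elim i0 id) x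
  rw [← absLogHeight_smul (x ∘ fun o : Option (Fin (n + 1)) => o.elim i0 id)
    (inv_ne_zero h0)] at h1
  refine le_trans (le_of_eq ?_) h1
  unfold hA
  congr 1
  funext o
  cases o with
  | none => simp [h0]
  | some i =>
    simp only [Option.elim_some, Pi.smul_apply, Function.comp_apply, id_eq, smul_eq_mul]
    rw [div_eq_inv_mul]

/-- **Nonconstant curves have points of large height.** -/
theorem unbounded (c : Fin r → Fin (n + 1) → Qbar) (l : Fin r → ℕ) (i i' : Fin (n + 1))
    (hne : cur c l i * Polynomial.C (∑ j, c j i') ≠ cur c l i' * Polynomial.C (∑ j, c j i))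
    (g : Polynomial Qbar) (hg : g ≠ 0) (B : ℝ) :
    ∃ m : ℕ, g.eval ((2 : Qbar) ^ m) ≠ 0 ∧ (fun i => (cur c l i).eval ((2 : Qbar) ^ m)) ≠ 0 ∧
      B < absLogHeight (fun i => (cur c l i).eval ((2 : Qbar) ^ m)) := by
  classical
  by_contra hcon
  push Not at hcon
  obtain ⟨i0, hi0⟩ : ∃ i0, cur c l i0 ≠ 0 := by
    by_contra h
    push Not at h
    apply hne
    rw [h i, h i', zero_mul, zero_mul]
  have hinf := good_infinite (g * cur c l i0) (mul_ne_zero hg hi0)
  -- the number field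
  let E : IntermediateField ℚ Qbar :=
    IntermediateField.adjoin ℚ (Set.range fun p : Fin r × Fin (n + 1) => c p.1 p.2)
  have hfd : FiniteDimensional ℚ E := IntermediateField.finiteDimensional_adjoin fun y _ =>
      ((AlgebraicClosure.isAlgebraic ℚ).isAlgebraic y).isIntegral
  have hNF : NumberField E := { to_charZero := inferInstance, to_finiteDimensional := hfd }
  have hcE : ∀ j a, c j a ∈ E := fun j a =>
    IntermediateField.subset_adjoin ℚ _ ⟨(j, a), rfl⟩
  have hxE : ∀ (m : ℕ) a, (cur c l a).eval ((2 : Qbar) ^ m) ∈ E := by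
    intro m a
    unfold Pool.Agent.H533R3.SL.cur
    rw [Polynomial.eval_finsetSum]
    refine sum_mem fun j _ => ?_
    simp only [Polynomial.eval_mul, Polynomial.eval_C, Polynomial.eval_pow, Polynomial.eval_X]
    refine mul_mem (hcE j a) (pow_mem (pow_mem ?_ _) _)
    have h2 : ((2 : ℕ) : Qbar) ∈ E := natCast_mem E 2
    simpa using h2
  let S : Set ℕ := {m : ℕ | (g * cur c l i0).eval ((2 : Qbar) ^ m) ≠ 0}
  have hSinf : Infinite S := hinf.to_subtype
  let T : Set (Fin (n + 1) → E) := {y | hA (fun a => ((y a : E) : Qbar)) ≤ B}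
  have hTfin : T.Finite := northcott_affQ E (E.val : E →+* Qbar) B
  have hTf : Finite T := hTfin.to_subtype
  have hS1 : ∀ m ∈ S, g.eval ((2 : Qbar) ^ m) ≠ 0 ∧ (cur c l i0).eval ((2 : Qbar) ^ m) ≠ 0 := by
    intro m hm
    have h1 : (g * cur c l i0).eval ((2 : Qbar) ^ m) ≠ 0 := hm
    rw [Polynomial.eval_mul] at h1
    exact ⟨left_ne_zero_of_mul h1, right_ne_zero_of_mul h1⟩
  let f : S → T := fun m => ⟨fun a => ⟨(cur c l a).eval ((2 : Qbar) ^ (m : ℕ)) /
      (cur c l i0).eval ((2 : Qbar) ^ (m : ℕ)), div_mem (hxE m a) (hxE m i0)⟩, by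
    show hA (fun a => (cur c l a).eval ((2 : Qbar) ^ (m : ℕ)) /
      (cur c l i0).eval ((2 : Qbar) ^ (m : ℕ))) ≤ B
    obtain ⟨h1, h2⟩ := hS1 m m.2
    refine (hA_div_le _ i0 h2).trans (hcon m h1 ?_)
    intro h3
    exact h2 (congrFun h3 i0)⟩
  obtain ⟨y, hy⟩ := Finite.exists_infinite_fiber f
  have hpoly : ∀ a, cur c l a = Polynomial.C ((y.1 a : E) : Qbar) * cur c l i0 := by
    intro a
    have himg : ((fun m : S => (2 : Qbar) ^ (m : ℕ)) '' (f ⁻¹' {y})).Infinite := by
      refine Set.Infinite.image ?_ (Set.infinite_coe_iff.1 hy)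
      intro m _ m' _ h
      exact Subtype.ext (pow_two_inj h)
    refine Polynomial.eq_of_infinite_eval_eq _ _ (himg.mono ?_)
    rintro _ ⟨m, hm, rfl⟩
    have h1 : f m = y := hm
    have h2 : ((y.1 a : E) : Qbar) = (cur c l a).eval ((2 : Qbar) ^ (m : ℕ)) /
        (cur c l i0).eval ((2 : Qbar) ^ (m : ℕ)) := by
      rw [← h1]
    simp only [Set.mem_ofPred_eq, Polynomial.eval_mul, Polynomial.eval_C]
    rw [h2, div_mul_cancel₀ _ (hS1 m m.2).2]
  apply hne
  have h1 : ∀ a, ∑ j, c j a = ((y.1 a : E) : Qbar) * (cur c l i0).eval 1 := by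
    intro a
    rw [← cur_eval_one c l a, hpoly a]
    simp only [Polynomial.eval_mul, Polynomial.eval_C]
  rw [h1 i, h1 i', hpoly i, hpoly i']
  simp only [Polynomial.C_mul]
  ring

end Pool.Agent.Q51.UF.K
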