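import Mathlib
import Pool.Agent.Q51.UF.ConvK

set_option autoImplicit false
set_option linter.unusedSectionVars false

/-!
# Families with generic member not uniruled: uniform height inequality outside a hypersurface
-/

namespace Pool.Agent.Q51.UF.K

open Finset NumberField
open MvPolynomial hiding psum
open Pool.Agent.Helper259.AbsHt Pool.Agent.Y215.SK Pool.Agent.Y215.AF
open Pool.Agent.H533R3.SL (cur cur_eval_one)
open Pool.Agent.Y215.SP (epsn)

variable {n N : ℕ} {A k : Type} [Field k]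

theorem eval_aeval' {L : Type} [Field L] (p : Fin (n + 1) → Polynomial L) (t : L)
    (F : MvPolynomial (Fin (n + 1)) L) :
    eval (fun i => (p i).eval t) F = (aeval p F).eval t := by
  rw [← Polynomial.coe_evalRingHom, aeval_def, MvPolynomial.hom_eval₂, eval, coe_eval₂Hom]
  congr 1
  ext x
  simp

/-- from the curve condition to the height inequality and to finiteness -/
theorem fam_heights [Finite A] (σ : k →+* Qbar)
    (P : Fin N → MvPolynomial (Fin (n + 1)) (MvPolynomial A k)) (d : ℕ) (hd : 1 ≤ d)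
    (hP : ∀ i, ∃ e, e ≤ d ∧ (P i).IsHomogeneous e)
    (G : MvPolynomial (Fin (n + 1)) (MvPolynomial A k)) (hGh : ∃ e, G.IsHomogeneous e) (r : ℕ)
    (hG : ∀ (L : Type) [Field L] (ι : k →+* L) (a : A → L) (c : Fin r → Fin (n + 1) → L)
        (l : Fin r → ℕ),
        (∀ i, MvPolynomial.aeval (cur c l) (fam ι a (P i)) = 0) →
        (∃ i i', cur c l i * Polynomial.C (∑ j, c j i') ≠
          cur c l i' * Polynomial.C (∑ j, c j i)) →
        eval (fun i => ∑ j, c j i) (fam ι a G) = 0)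
    (Γ : Subgroup Qbarˣ) (hΓ : Γ.FG) :
    ∃ (B : ℝ) (e : ℕ), 0 ≤ B ∧ ∀ (a : A → Qbar) (V : Fin r → Fin (n + 1) → Qbar),
      (∀ u : Fin r → Qbarˣ, (∀ j, u j ∈ DivHull Γ) → psum Finset.univ u V ≠ 0 →
        (∀ i, eval (psum Finset.univ u V) (fam σ a (P i)) = 0) →
        eval (psum Finset.univ u V) (fam σ a G) ≠ 0 →
        absLogHeight (psum Finset.univ u V) ≤ B * (1 + hA a + hV V)) ∧
      (mixPts (fun i => fam σ a (P i)) (fam σ a G) Γ (epsn ((d + 1) ^ r) / d / 2) V).Finite ∧
      ((mixPts (fun i => fam σ a (P i)) (fam σ a G) Γ (epsn ((d + 1) ^ r) / d / 2) V).ncard : ℝ) ≤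
        B * (1 + hA a + hV V) ^ e := by
  classical
  obtain ⟨C, hC⟩ := mult_boundU σ (r := r) P (fun i => (hP i).imp fun e h => h.2) G hGh Set.univ
    (fun L _ ι a c l _ h1 h2 => hG L ι a c l h1 h2) Γ hΓ
  obtain ⟨B, e, hB⟩ := mix_finiteU σ (r := r) P d hd hP G hGh Set.univ
    (fun L _ ι a c l _ h1 h2 => hG L ι a c l h1 h2) Γ hΓ
  have hr : (0 : ℝ) ≤ r := Nat.cast_nonneg r
  refine ⟨|B| + (|C| + (r + 1) + 1), e, by positivity, fun a V => ⟨fun u hu hx0 hx hxG => ?_, ?_⟩⟩
  · obtain ⟨J, hJ, hh⟩ := hC a u V (fun j i h => absurd (Set.mem_univ _) h) hu ⟨hx0, fun i => by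
      have h1 := hx i
      simpa using h1, by simpa using hxG⟩
    obtain ⟨c, hc, hc2⟩ := good_prop J u V hJ hx0
    have h3 := psum_height J u V
    rw [hc2, absLogHeight_smul _ hc] at h3
    have h6 : 0 ≤ hV V := absLogHeight_nonneg _
    have h6' : 0 ≤ hA a := absLogHeight_nonneg _
    have h7 : C * (1 + hA a + hV V) ≤ |C| * (1 + hA a + hV V) :=
      mul_le_mul_of_nonneg_right (le_abs_self C) (by linarith)
    have h8 : 0 ≤ |B| * (1 + hA a + hV V) := by positivity
    nlinarith [mul_nonneg hr h6, mul_nonneg hr h6']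
  · obtain ⟨h1, h2⟩ := hB a V (fun j i h => absurd (Set.mem_univ _) h)
    refine ⟨h1, h2.trans ?_⟩
    have h6 : 0 ≤ hV V := absLogHeight_nonneg _
    have h6' : 0 ≤ hA a := absLogHeight_nonneg _
    refine mul_le_mul_of_nonneg_right ?_ (by positivity)
    have h3 := le_abs_self B
    have h4 := abs_nonneg C
    linarith

/-- a generically uniruled family has, outside every hypersurface, a nonconstant curve over `Qbar` -/
theorem uniruled_curve [Finite A] (σ : k →+* Qbar)
    (P : Fin N → MvPolynomial (Fin (n + 1)) (MvPolynomial A k))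
    (hu : FamUniruled (Ideal.span (Set.range P))) :
    ∃ r : ℕ, ∀ G : MvPolynomial (Fin (n + 1)) (MvPolynomial A k), (∃ e, G.IsHomogeneous e) →
      G ∉ Ideal.span (Set.range P) → ∃ (a : A → Qbar) (c : Fin r → Fin (n + 1) → Qbar),
        (∀ i, aeval (cur c (fun j => (j : ℕ))) (fam σ a (P i)) = 0) ∧
        (∃ i i', cur c (fun j => (j : ℕ)) i * Polynomial.C (∑ j, c j i') ≠
          cur c (fun j => (j : ℕ)) i' * Polynomial.C (∑ j, c j i)) ∧
        eval (fun i => ∑ j, c j i) (fam σ a G) ≠ 0 := by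
  classical
  obtain ⟨L, iL, ι, a0, p, hp, hgen, i, i', hii⟩ := hu
  obtain ⟨r, hr⟩ : ∃ r : ℕ, ∀ i, (p i).natDegree < r := by
    refine ⟨∑ i, (p i).natDegree + 1, fun i => Nat.lt_succ_of_le ?_⟩
    exact Finset.single_le_sum (f := fun i => (p i).natDegree) (fun _ _ => Nat.zero_le _)
      (Finset.mem_univ i)
  refine ⟨r, fun G hGh hGI => ?_⟩
  set l : Fin r → ℕ := fun j => (j : ℕ) with hl
  let c0 : Fin r → Fin (n + 1) → L := fun j i => (p i).coeff j
  have hcur0 : cur c0 l = p := by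
    funext i
    unfold Pool.Agent.H533R3.SL.cur
    conv_rhs => rw [Polynomial.as_sum_range_C_mul_X_pow' (p i) (hr i)]
    rw [Finset.sum_range]
  have hsum0 : ∀ i, ∑ j, c0 j i = (p i).eval 1 := by
    intro i
    rw [← cur_eval_one c0 l i, hcur0]
  obtain ⟨w, hw⟩ : ∃ w : ℕ, (cur c0 l i * Polynomial.C (∑ j, c0 j i') -
      cur c0 l i' * Polynomial.C (∑ j, c0 j i)).coeff w ≠ 0 := by
    by_contra h
    push Not at h
    apply hii
    rw [← sub_eq_zero]
    ext w
    have h1 := h w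
    rw [hcur0, hsum0, hsum0] at h1
    rw [h1, Polynomial.coeff_zero]
  -- the universal curve
  let R : Type := MvPolynomial (A ⊕ (Fin r × Fin (n + 1))) k
  let ιR : k →+* R := MvPolynomial.C
  let at' : A → R := fun α => MvPolynomial.X (Sum.inl α)
  let ct : Fin r → Fin (n + 1) → R := fun j i => MvPolynomial.X (Sum.inr (j, i))
  let xt : Fin (n + 1) → R := fun i => ∑ j, ct j i
  let Nw : R := (cur ct l i * Polynomial.C (xt i') - cur ct l i' * Polynomial.C (xt i)).coeff w
  have key : ∀ (M : Type) [Field M] (τ : k →+* M) (a : A → M) (c : Fin r → Fin (n + 1) → M),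
      ∃ s : R →+* M, s = eval₂Hom τ (Sum.elim a (fun q : Fin r × Fin (n + 1) => c q.1 q.2)) ∧
      (∀ F : MvPolynomial (Fin (n + 1)) (MvPolynomial A k),
        Polynomial.map s (MvPolynomial.aeval (cur ct l) (fam ιR at' F)) =
          MvPolynomial.aeval (cur c l) (fam τ a F)) ∧
      (∀ G : MvPolynomial (Fin (n + 1)) (MvPolynomial A k),
        s (eval xt (fam ιR at' G)) = eval (fun i => ∑ j, c j i) (fam τ a G)) ∧
      s Nw = (cur c l i * Polynomial.C (∑ j, c j i') -
        cur c l i' * Polynomial.C (∑ j, c j i)).coeff w := by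
    intro M _ τ a c
    refine ⟨_, rfl, ?_⟩
    set s : R →+* M := eval₂Hom τ (Sum.elim a (fun q : Fin r × Fin (n + 1) => c q.1 q.2)) with hs
    have hsc : (fun j i => s (ct j i)) = c := by
      funext j i
      change eval₂ τ (Sum.elim a (fun q : Fin r × Fin (n + 1) => c q.1 q.2))
        (MvPolynomial.X (Sum.inr (j, i))) = c j i
      rw [eval₂_X, Sum.elim_inr]
    have hsa : (fun α => s (at' α)) = a := by
      funext α
      change eval₂ τ (Sum.elim a (fun q : Fin r × Fin (n + 1) => c q.1 q.2))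
        (MvPolynomial.X (Sum.inl α)) = a α
      rw [eval₂_X, Sum.elim_inl]
    have hsι : s.comp ιR = τ := by
      ext b
      change eval₂ τ (Sum.elim a (fun q : Fin r × Fin (n + 1) => c q.1 q.2))
        (MvPolynomial.C b) = τ b
      rw [eval₂_C]
    have hsx : ∀ i, s (xt i) = ∑ j, c j i := by
      intro i
      simp only [xt, map_sum]
      exact Finset.sum_congr rfl fun j _ => congrFun (congrFun hsc j) i
    refine ⟨fun F => ?_, fun G => ?_, ?_⟩
    · rw [map_aeval_cur, fam_map, hsc, hsa, hsι]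
    · have h1 : s (eval xt (fam ιR at' G)) =
          eval (fun i => s (xt i)) (fam (s.comp ιR) (fun α => s (at' α)) G) := by
        rw [← fam_map, eval_map, ← coe_eval₂Hom, ← RingHom.comp_apply]
        congr 1
        refine MvPolynomial.ringHom_ext (fun b => ?_) (fun i => ?_)
        · simp
        · simp
      rw [h1, hsa, hsι]
      congr 2
      funext i
      exact hsx i
    · have h1 : s Nw = (Polynomial.map s (cur ct l i * Polynomial.C (xt i') -
          cur ct l i' * Polynomial.C (xt i))).coeff w := by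
        rw [Polynomial.coeff_map]
      rw [h1, Polynomial.map_sub, Polynomial.map_mul, Polynomial.map_mul, map_cur, map_cur,
        Polynomial.map_C, Polynomial.map_C, hsc, hsx, hsx]
  let _ : Algebra k L := ι.toAlgebra
  let _ : Algebra k Qbar := σ.toAlgebra
  have haev : ∀ (M : Type) [Field M] [Algebra k M] (z : A ⊕ (Fin r × Fin (n + 1)) → M) (b : R),
      aeval z b = eval₂Hom (algebraMap k M) (Sum.elim (fun α => z (Sum.inl α))
        (fun q : Fin r × Fin (n + 1) => (fun j i => z (Sum.inr (j, i))) q.1 q.2)) b := by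
    intro M _ _ z b
    rw [aeval_def, coe_eval₂Hom]
    congr 1
    funext x
    rcases x with x | x <;> rfl
  obtain ⟨z, hz1, hz2⟩ := H952R2.Sextic.transfer (k := k) (kb := Qbar) (M := L)
    (fun x : Fin N × ℕ => (MvPolynomial.aeval (cur ct l) (fam ιR at' (P x.1))).coeff x.2)
    (Nw * eval xt (fam ιR at' G))
    ⟨Sum.elim a0 (fun q : Fin r × Fin (n + 1) => c0 q.1 q.2), fun x => by
      obtain ⟨s, hs, h1, -, -⟩ := key L ι a0 c0
      rw [haev]
      have h2 := h1 (P x.1)
      rw [hcur0, hp _ (Ideal.subset_span ⟨x.1, rfl⟩)] at h2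
      have h3 := congrArg (fun q => Polynomial.coeff q x.2) h2
      simp only [Polynomial.coeff_map, Polynomial.coeff_zero] at h3
      rw [hs] at h3
      exact h3, by
      obtain ⟨s, hs, -, h1, h2⟩ := key L ι a0 c0
      rw [haev]
      have h3 : s (Nw * eval xt (fam ιR at' G)) ≠ 0 := by
        rw [map_mul, h2, h1]
        refine mul_ne_zero hw ?_
        have h4 := hgen G hGh hGI
        have h5 : (fun i => ∑ j, c0 j i) = fun i => (p i).eval 1 := funext hsum0
        rw [h5]
        exact h4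
      rw [hs] at h3
      exact h3⟩
  obtain ⟨s, hs, h1, h2, h3⟩ := key Qbar σ (fun α => z (Sum.inl α))
    (fun j i => z (Sum.inr (j, i)))
  have hsz : ∀ b : R, s b = aeval z b := by
    intro b
    rw [haev, hs]
    rfl
  refine ⟨fun α => z (Sum.inl α), fun j i => z (Sum.inr (j, i)), fun i1 => ?_, ⟨i, i', ?_⟩, ?_⟩
  · rw [← h1 (P i1)]
    ext t
    rw [Polynomial.coeff_map, Polynomial.coeff_zero, hsz]
    exact hz1 (i1, t)
  · intro h0
    rw [map_mul] at hz2
    apply left_ne_zero_of_mul hz2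
    rw [← hsz, h3, h0, sub_self, Polynomial.coeff_zero]
  · rw [← h2, hsz]
    rw [map_mul] at hz2
    exact right_ne_zero_of_mul hz2

/-- **Families.** -/
theorem fam_tfae [Finite A] (σ : k →+* Qbar)
    (P : Fin N → MvPolynomial (Fin (n + 1)) (MvPolynomial A k)) (d : ℕ) (hd : 1 ≤ d)
    (hP : ∀ i, ∃ e, e ≤ d ∧ (P i).IsHomogeneous e)
    (hprime : (Ideal.span (Set.range P)).IsPrime) :
    [¬ FamUniruled (Ideal.span (Set.range P)),
     ∀ r : ℕ, ∃ G : MvPolynomial (Fin (n + 1)) (MvPolynomial A k), (∃ e, G.IsHomogeneous e) ∧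
       G ∉ Ideal.span (Set.range P) ∧ ∀ Γ : Subgroup Qbarˣ, Γ.FG →
        ∃ (B : ℝ) (e : ℕ), 0 ≤ B ∧ ∀ (a : A → Qbar) (V : Fin r → Fin (n + 1) → Qbar),
          (∀ u : Fin r → Qbarˣ, (∀ j, u j ∈ DivHull Γ) → psum Finset.univ u V ≠ 0 →
            (∀ i, eval (psum Finset.univ u V) (fam σ a (P i)) = 0) →
            eval (psum Finset.univ u V) (fam σ a G) ≠ 0 →
            absLogHeight (psum Finset.univ u V) ≤ B * (1 + hA a + hV V)) ∧
          (mixPts (fun i => fam σ a (P i)) (fam σ a G) Γ (epsn ((d + 1) ^ r) / d / 2) V).Finite ∧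
          ((mixPts (fun i => fam σ a (P i)) (fam σ a G) Γ
            (epsn ((d + 1) ^ r) / d / 2) V).ncard : ℝ) ≤ B * (1 + hA a + hV V) ^ e,
     ∀ r : ℕ, ∃ G : MvPolynomial (Fin (n + 1)) (MvPolynomial A k), (∃ e, G.IsHomogeneous e) ∧
       G ∉ Ideal.span (Set.range P) ∧ ∀ (a : A → Qbar) (V : Fin r → Fin (n + 1) → Qbar),
        ∃ B : ℝ, ∀ e : Fin r → ℕ, (fun i => ∑ j, (2 : Qbar) ^ e j * V j i) ≠ 0 →
          (∀ i, eval (fun i => ∑ j, (2 : Qbar) ^ e j * V j i) (fam σ a (P i)) = 0) →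
          eval (fun i => ∑ j, (2 : Qbar) ^ e j * V j i) (fam σ a G) ≠ 0 →
          absLogHeight (fun i => ∑ j, (2 : Qbar) ^ e j * V j i) ≤ B].TFAE := by
  classical
  tfae_have 1 → 2 := by
    intro hnu r
    obtain ⟨G, hGh, hGI, hG⟩ := exists_hyperF (Set.range P) hprime hnu d hd
      (by rintro _ ⟨i, rfl⟩; exact hP i) r
    refine ⟨G, hGh, hGI, fun Γ hΓ => fam_heights σ P d hd hP G hGh r ?_ Γ hΓ⟩
    intro L _ ι a c l h1 h2
    exact hG L ι a c l (by rintro _ ⟨i, rfl⟩; exact h1 i) h2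
  tfae_have 2 → 3 := by
    intro h r
    obtain ⟨G, hGh, hGI, hG⟩ := h r
    refine ⟨G, hGh, hGI, fun a V => ?_⟩
    have h2 : (2 : Qbar) ≠ 0 := two_ne_zero
    obtain ⟨B, _, _, hB⟩ := hG (Subgroup.zpowers (Units.mk0 (2 : Qbar) h2))
      ((Subgroup.fg_iff _).2 ⟨{Units.mk0 (2 : Qbar) h2}, by
        rw [← Subgroup.zpowers_eq_closure], Set.finite_singleton _⟩)
    refine ⟨B * (1 + hA a + hV V), fun e hx0 hx hxG => ?_⟩
    have he : psum Finset.univ (fun j => (Units.mk0 (2 : Qbar) h2) ^ e j) V =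
        fun i => ∑ j, (2 : Qbar) ^ e j * V j i := by
      funext i
      unfold Pool.Agent.Y215.SK.psum
      refine Finset.sum_congr rfl fun j _ => ?_
      simp
    have h3 := (hB a V).1 (fun j => (Units.mk0 (2 : Qbar) h2) ^ e j) (fun j => ⟨1, one_pos, by
      rw [pow_one]
      exact Subgroup.pow_mem _ (Subgroup.mem_zpowers _) _⟩)
    rw [he] at h3
    exact h3 hx0 hx hxG
  tfae_have 3 → 1 := by
    intro h hu
    obtain ⟨r, hr⟩ := uniruled_curve σ P hu
    obtain ⟨G, hGh, hGI, hG⟩ := h r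
    obtain ⟨a, c, h1, ⟨i, i', h2⟩, h3⟩ := hr G hGh hGI
    obtain ⟨B, hB⟩ := hG a c
    have hg : aeval (cur c (fun j : Fin r => (j : ℕ))) (fam σ a G) ≠ 0 := by
      intro h0
      apply h3
      have h4 := congrArg (Polynomial.eval 1) h0
      rw [Polynomial.eval_zero] at h4
      rw [← h4]
      have h5 : (fun i => ∑ j, c j i) =
          fun i => (cur c (fun j : Fin r => (j : ℕ)) i).eval 1 := by
        funext i
        exact (cur_eval_one c _ i).symm
      rw [h5, eval_aeval']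
    obtain ⟨m, hm1, hm2, hm3⟩ := unbounded c (fun j : Fin r => (j : ℕ)) i i' h2 _ hg B
    have hpt : (fun i => (cur c (fun j : Fin r => (j : ℕ)) i).eval ((2 : Qbar) ^ m)) =
        fun i => ∑ j : Fin r, (2 : Qbar) ^ (m * (j : ℕ)) * c j i := by
      funext i
      unfold Pool.Agent.H533R3.SL.cur
      rw [Polynomial.eval_finsetSum]
      refine Finset.sum_congr rfl fun j _ => ?_
      simp only [Polynomial.eval_mul, Polynomial.eval_C, Polynomial.eval_pow, Polynomial.eval_X]
      rw [pow_mul, mul_comm]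
    have hev : ∀ F : MvPolynomial (Fin (n + 1)) Qbar,
        eval (fun i => ∑ j : Fin r, (2 : Qbar) ^ (m * (j : ℕ)) * c j i) F =
          (aeval (cur c (fun j : Fin r => (j : ℕ))) F).eval ((2 : Qbar) ^ m) := by
      intro F
      rw [← hpt, eval_aeval']
    rw [hpt] at hm2 hm3
    refine absurd (hB (fun j => m * (j : ℕ)) hm2 (fun i => ?_) ?_) (not_le.2 hm3)
    · rw [hev, h1 i, Polynomial.eval_zero]
    · rw [hev]
      exact hm1
  tfae_finish

end Pool.Agent.Q51.UF.K
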